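import Mathlib
import Pool.Agent.Y705.BE.Defs
import Pool.Agent.Y705.BE.Laguerre

set_option autoImplicit false

/-!
# Power means of `∏_j (X_j + t)` in general `β`-ensembles (full answer to Q1 of MP_58c014_an, stronger form)

For every `β > 0`, every one-body measure `ν` on `[0, ∞)` with finite moments which is not carried
by `n` points, and all real exponents `a < b`, the ratio of the power means of orders `b` and `a`
of `∏_j (X_j + t)` (`X` distributed with density proportional to `∏_{k<j} |x_j - x_k|^β` with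
respect to `ν^n`) is a strictly decreasing function of `t`; this remains true if the one-body
measure of the numerator is multiplied by a nondecreasing function. The question is the case
`β = 2`, `ν = e^{-x} dx`, `a = -1/2`, `b = 1/2`.
-/

namespace Pool.Agent.Results.MP_58c014_an.BetaEnsemblePowerMeans

open MeasureTheory
open Pool.Agent.Y705.BE (vdm Z0 Z ZL PM Adm Near0)

/-- The weight exp(-sum x_j) times the product over k < j of (x_j - x_k)^2. -/
noncomputable def P (n : ℕ) (x : Fin n → ℝ) : ℝ :=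
  Real.exp (-∑ j, x j) * ∏ k, ∏ j ∈ Finset.Ioi k, (x j - x k) ^ 2

/-- F(t): integral over [0, oo)^n of P(x) times the product of (x_j + t)^(-1/2). -/
noncomputable def F (n : ℕ) (t : ℝ) : ℝ :=
  ∫ x in Set.Ici (0 : Fin n → ℝ), P n x * ∏ j, (x j + t) ^ (-(1 / 2) : ℝ)

/-- G(t): integral over [0, oo)^n of P(x) times the product of (x_j + t)^(1/2). -/
noncomputable def G (n : ℕ) (t : ℝ) : ℝ :=
  ∫ x in Set.Ici (0 : Fin n → ℝ), P n x * ∏ j, (x j + t) ^ (1 / 2 : ℝ)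

/-- H(t) = 2 (F G)'(t). -/
noncomputable def H (n : ℕ) (t : ℝ) : ℝ := 2 * deriv (fun s => F n s * G n s) t

theorem vdm_two (n : ℕ) (x : Fin n → ℝ) :
    vdm n 2 x = ∏ k, ∏ j ∈ Finset.Ioi k, (x j - x k) ^ 2 := by
  unfold vdm
  refine Finset.prod_congr rfl fun k _ => Finset.prod_congr rfl fun j _ => ?_
  rw [Real.rpow_two, sq_abs]

theorem Z_nuL (n : ℕ) (a t : ℝ) :
    Z n 2 Pool.Agent.Y705.BE.nuL a t =
      ∫ x in Set.Ici (0 : Fin n → ℝ), P n x * ∏ j, (x j + t) ^ a := by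
  unfold Z
  rw [Pool.Agent.Y705.BE.int_nuL]
  refine integral_congr_ae (Filter.Eventually.of_forall fun x => ?_)
  simp only [vdm_two, P]
  ring

theorem F_eq (n : ℕ) (t : ℝ) : F n t = Z n 2 Pool.Agent.Y705.BE.nuL (-(1 / 2)) t :=
  (Z_nuL n _ t).symm

theorem G_eq (n : ℕ) (t : ℝ) : G n t = Z n 2 Pool.Agent.Y705.BE.nuL (1 / 2) t :=
  (Z_nuL n _ t).symm

theorem cn_nuL (n : ℕ) {a : ℝ} (ha : -1 < a) (ha0 : a ≠ 0) {t : ℝ} (ht : 0 ≤ t) :
    Pool.Agent.Y705.BE.Cn Pool.Agent.Y705.BE.nuL a t := by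
  rcases ht.eq_or_lt with rfl | ht
  · exact Pool.Agent.Y705.BE.cn_zero (Pool.Agent.Y705.BE.nuL_adm n)
      (Pool.Agent.Y705.BE.nuL_near0 ha ha0)
  · exact Pool.Agent.Y705.BE.cn_pos (Pool.Agent.Y705.BE.nuL_adm n) a ht

theorem Z_pos_nuL (n : ℕ) {a : ℝ} (ha : -1 < a) (ha0 : a ≠ 0) {t : ℝ} (ht : 0 ≤ t) :
    0 < Z n 2 Pool.Agent.Y705.BE.nuL a t := by
  have h := Pool.Agent.Y705.BE.Z_pos (n := n) (γ := 2 / 2) (by norm_num)
    (Pool.Agent.Y705.BE.nuL_adm n) (cn_nuL n ha ha0 ht).ok le_rfl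
  have e : Z n 2 Pool.Agent.Y705.BE.nuL a t =
      ∫ x, Pool.Agent.Y705.BE.Q (n := n) (2 / 2) a t x
        ∂(Measure.pi fun _ => Pool.Agent.Y705.BE.nuL) := by
    unfold Z Pool.Agent.Y705.BE.Q
    simp_rw [Pool.Agent.Y705.BE.vdm_eq]
  rw [e]
  exact h

theorem Z0_pos_nuL (n : ℕ) : 0 < Z0 n 2 Pool.Agent.Y705.BE.nuL := by
  have h := Pool.Agent.Y705.BE.W_pos (n := n) (γ := 2 / 2) (by norm_num)
    (Pool.Agent.Y705.BE.nuL_adm n)
  unfold Z0
  simp_rw [Pool.Agent.Y705.BE.vdm_eq]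
  exact h

/-- `F G = Z0² √(ratio of the power means)` -/
theorem FG_eq (n : ℕ) {t : ℝ} (ht : 0 ≤ t) :
    F n t * G n t = Z0 n 2 Pool.Agent.Y705.BE.nuL ^ 2 *
      Real.sqrt (PM n 2 Pool.Agent.Y705.BE.nuL (1 / 2) t /
        PM n 2 Pool.Agent.Y705.BE.nuL (-(1 / 2)) t) := by
  have hZ0 := Z0_pos_nuL n
  have hF := Z_pos_nuL n (a := -(1 / 2)) (by norm_num) (by norm_num) ht
  have hG := Z_pos_nuL n (a := 1 / 2) (by norm_num) (by norm_num) ht
  rw [F_eq, G_eq]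
  set z := Z0 n 2 Pool.Agent.Y705.BE.nuL with hz
  set f := Z n 2 Pool.Agent.Y705.BE.nuL (-(1 / 2)) t with hf
  set g := Z n 2 Pool.Agent.Y705.BE.nuL (1 / 2) t with hg
  unfold PM
  rw [if_neg (by norm_num), if_neg (by norm_num), ← hz, ← hf, ← hg]
  have e1 : (g / z) ^ (1 / (1 / 2 : ℝ)) = (g / z) ^ 2 := by
    rw [show (1 / (1 / 2 : ℝ)) = ((2 : ℕ) : ℝ) by norm_num, Real.rpow_natCast]
  have e2 : (f / z) ^ (1 / (-(1 / 2) : ℝ)) = ((f / z) ^ 2)⁻¹ := by
    rw [show (1 / (-(1 / 2) : ℝ)) = -((2 : ℕ) : ℝ) by norm_num,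
      Real.rpow_neg (div_pos hF hZ0).le, Real.rpow_natCast]
  rw [e1, e2]
  have e3 : (g / z) ^ 2 / ((f / z) ^ 2)⁻¹ = ((g / z) * (f / z)) ^ 2 := by
    rw [div_inv_eq_mul]; ring
  rw [e3, Real.sqrt_sq (mul_pos (div_pos hG hZ0) (div_pos hF hZ0)).le]
  field_simp

/-- **Main theorem.** -/
theorem result :
    -- (1) all integrals converge and are positive
    (∀ (n : ℕ) (β : ℝ) (ν : Measure ℝ) [IsFiniteMeasure ν], 0 < β → Adm n ν →
      0 < Z0 n β ν ∧ ∀ a t : ℝ, 0 < t →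
        Integrable (fun x : Fin n → ℝ => vdm n β x * ∏ j, (x j + t) ^ a)
          (Measure.pi fun _ => ν) ∧
        Integrable (fun x : Fin n → ℝ => vdm n β x * Real.log (∏ j, (x j + t)))
          (Measure.pi fun _ => ν) ∧
        0 < Z n β ν a t) ∧
    -- (2) the ratio of two power means is strictly decreasing in `t`; the two one-body measures
    -- may differ by a nondecreasing density `h` (`h = 1` is the case of a single measure)
    (∀ (n : ℕ) (β : ℝ) (ν₁ ν₂ : Measure ℝ) [IsFiniteMeasure ν₁] [IsFiniteMeasure ν₂] (h : ℝ → ℝ),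
      1 ≤ n → 0 < β → Adm n ν₁ → Adm n ν₂ → Measurable h → (∀ x, 0 ≤ x → 0 ≤ h x) →
      MonotoneOn h (Set.Ici 0) → ν₂ = ν₁.withDensity (fun x => ENNReal.ofReal (h x)) →
      ∀ a b : ℝ,
        (a ≤ b → AntitoneOn (fun t => PM n β ν₂ b t / PM n β ν₁ a t) (Set.Ioi 0)) ∧
        (a < b → StrictAntiOn (fun t => PM n β ν₂ b t / PM n β ν₁ a t) (Set.Ioi 0) ∧
          (∀ t : ℝ, 0 < t → ∃ r < 0, HasDerivAt (fun s => PM n β ν₂ b s / PM n β ν₁ a s) r t) ∧
          (Near0 ν₁ a → Near0 ν₂ b →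
            StrictAntiOn (fun t => PM n β ν₂ b t / PM n β ν₁ a t) (Set.Ici 0)))) ∧
    -- (3) the condition on the number of points is sharp: for `n` atoms all power means agree
    (∀ (n : ℕ) (β : ℝ) (ν : Measure ℝ) [IsFiniteMeasure ν] (s : Finset ℝ), 0 < β → s.card = n →
      (∀ p ∈ s, 0 ≤ p ∧ ν {p} ≠ 0) → ν (↑s)ᶜ = 0 →
      ∀ a t : ℝ, 0 < t → PM n β ν a t = ∏ p ∈ s, (p + t)) ∧
    -- (4) the question itself
    (∀ n : ℕ, 1 ≤ n →
      StrictAntiOn (fun t => F n t * G n t) (Set.Ici 0) ∧ ∀ t : ℝ, 0 < t → H n t < 0) := by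
  refine ⟨?_, ?_, ?_, ?_⟩
  · intro n β ν _ hβ hn
    have hγ : 0 < β / 2 := by linarith
    refine ⟨?_, fun a t ht => ⟨?_, ?_, ?_⟩⟩
    · have h := Pool.Agent.Y705.BE.W_pos (n := n) hγ hn
      unfold Z0
      simp_rw [Pool.Agent.Y705.BE.vdm_eq]
      exact h
    · have h := Pool.Agent.Y705.BE.Q_integrable (n := n) hγ
        (Pool.Agent.Y705.BE.ok_pos hn a ht) le_rfl
      refine h.congr (Filter.Eventually.of_forall fun x => ?_)
      simp only [Pool.Agent.Y705.BE.Q, Pool.Agent.Y705.BE.vdm_eq]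
    · have hL := Pool.Agent.Y705.BE.okL_pos hn ht
      have h := Pool.Agent.Y705.BE.WSL_integrable (n := n) hγ hL le_rfl
      refine h.congr ?_
      filter_upwards [Pool.Agent.Y705.BE.ae_pos hL.ok] with x hx
      rw [Pool.Agent.Y705.BE.vdm_eq, Real.log_prod fun j _ => (hx j).2.ne']
      rfl
    · have h := Pool.Agent.Y705.BE.Z_pos (n := n) hγ hn
        (Pool.Agent.Y705.BE.ok_pos hn a ht) le_rfl
      have e : Z n β ν a t = ∫ x, Pool.Agent.Y705.BE.Q (n := n) (β / 2) a t x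
          ∂(Measure.pi fun _ => ν) := by
        unfold Z Pool.Agent.Y705.BE.Q
        simp_rw [Pool.Agent.Y705.BE.vdm_eq]
      rw [e]
      exact h
  · intro n β ν₁ ν₂ _ _ h hn1 hβ hA1 hA2 hm h0 hmon hw a b
    have hγ : 0 < β / 2 := by linarith
    have hle : ∀ t, 0 < t → Pool.Agent.Y705.BE.mm n (β / 2) ν₂ a t ≤
        Pool.Agent.Y705.BE.mm n (β / 2) ν₁ a t :=
      fun t ht => Pool.Agent.Y705.BE.mm_le hA1 hA2 hm h0 hw hγ hmon ht
    refine ⟨fun hab => ?_, fun hab => ?_⟩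
    · refine Pool.Agent.Y705.BE.ratio_anti hβ hA1 hA2 fun t ht => ?_
      rcases hab.eq_or_lt with rfl | hab
      · exact hle t ht
      · exact (Pool.Agent.Y705.BE.mm_lt hγ hn1 hA2 hab ht).le.trans (hle t ht)
    · have hmm : ∀ t, 0 < t → Pool.Agent.Y705.BE.mm n (β / 2) ν₂ b t <
          Pool.Agent.Y705.BE.mm n (β / 2) ν₁ a t :=
        fun t ht => (Pool.Agent.Y705.BE.mm_lt hγ hn1 hA2 hab ht).trans_le (hle t ht)
      exact ⟨Pool.Agent.Y705.BE.ratio_strict hβ hA1 hA2 hmm,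
        fun t ht => Pool.Agent.Y705.BE.ratio_deriv_neg hβ hA1 hA2 hmm ht,
        fun h1 h2 => Pool.Agent.Y705.BE.ratio_strict0 hβ hA1 hA2 hmm h1 h2⟩
  · intro n β ν _ s hβ hs hp hc a t ht
    exact Pool.Agent.Y705.BE.atoms hβ hs hp hc a ht
  · intro n hn1
    have hA := Pool.Agent.Y705.BE.nuL_adm n
    have hab : (-(1 / 2) : ℝ) < 1 / 2 := by norm_num
    have hmm : ∀ t, 0 < t → Pool.Agent.Y705.BE.mm n (2 / 2) Pool.Agent.Y705.BE.nuL (1 / 2) t <
        Pool.Agent.Y705.BE.mm n (2 / 2) Pool.Agent.Y705.BE.nuL (-(1 / 2)) t :=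
      fun t ht => Pool.Agent.Y705.BE.mm_lt (by norm_num) hn1 hA hab ht
    have hZ0 := Z0_pos_nuL n
    have hpos : ∀ t : ℝ, 0 ≤ t → 0 < PM n 2 Pool.Agent.Y705.BE.nuL (1 / 2) t /
        PM n 2 Pool.Agent.Y705.BE.nuL (-(1 / 2)) t := fun t ht =>
      Pool.Agent.Y705.BE.ratio_pos (by norm_num) hA hA
        (cn_nuL n (by norm_num) (by norm_num) ht) (cn_nuL n (by norm_num) (by norm_num) ht)
    constructor
    · have h := Pool.Agent.Y705.BE.ratio_strict0 (β := 2) (by norm_num) hA hA hmm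
        (Pool.Agent.Y705.BE.nuL_near0 (by norm_num) (by norm_num))
        (Pool.Agent.Y705.BE.nuL_near0 (by norm_num) (by norm_num))
      intro s hs t ht hst
      have hs0 : (0 : ℝ) ≤ s := hs
      have ht0 : (0 : ℝ) ≤ t := ht
      simp only
      rw [FG_eq n hs0, FG_eq n ht0]
      refine mul_lt_mul_of_pos_left ?_ (by positivity)
      exact Real.sqrt_lt_sqrt (hpos t ht0).le (h hs ht hst)
    · intro t ht
      obtain ⟨r, hr, hd⟩ := Pool.Agent.Y705.BE.ratio_deriv_neg (β := 2) (by norm_num) hA hA hmm ht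
      have h1 := (hd.sqrt (hpos t ht.le).ne').const_mul (Z0 n 2 Pool.Agent.Y705.BE.nuL ^ 2)
      have h2 : HasDerivAt (fun s => F n s * G n s) (Z0 n 2 Pool.Agent.Y705.BE.nuL ^ 2 *
          (r / (2 * Real.sqrt (PM n 2 Pool.Agent.Y705.BE.nuL (1 / 2) t /
            PM n 2 Pool.Agent.Y705.BE.nuL (-(1 / 2)) t)))) t := by
        refine h1.congr_of_eventuallyEq ?_
        filter_upwards [lt_mem_nhds ht] with s hs
        exact FG_eq n (le_of_lt hs)
      unfold H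
      rw [h2.deriv]
      have h3 : 0 < Real.sqrt (PM n 2 Pool.Agent.Y705.BE.nuL (1 / 2) t /
            PM n 2 Pool.Agent.Y705.BE.nuL (-(1 / 2)) t) := Real.sqrt_pos.2 (hpos t ht.le)
      have h4 : r / (2 * Real.sqrt (PM n 2 Pool.Agent.Y705.BE.nuL (1 / 2) t /
            PM n 2 Pool.Agent.Y705.BE.nuL (-(1 / 2)) t)) < 0 :=
        div_neg_of_neg_of_pos hr (by positivity)
      have h5 : 0 < Z0 n 2 Pool.Agent.Y705.BE.nuL ^ 2 := by positivity
      nlinarith [mul_neg_of_pos_of_neg h5 h4]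

end Pool.Agent.Results.MP_58c014_an.BetaEnsemblePowerMeans
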